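import Pool.Agent.Helper44.GN.Defs
import Pool.Agent.Helper67.LB.PLn

open Finset MeasureTheory Filter Topology Matrix
open scoped ENNReal ContDiff

namespace Pool.Agent.Helper44.GN

open Pool.Agent.Helper44.GF

theorem pls_Bx_compact (n : ℕ) (δ : ℝ) : IsCompact (Bx n δ) :=
  isCompact_univ_pi fun _ => isCompact_Icc

theorem pls_Bx_meas (n : ℕ) (δ : ℝ) : MeasurableSet (Bx n δ) :=
  (pls_Bx_compact n δ).isClosed.measurableSet

theorem pls_Bx_mem {n : ℕ} {δ : ℝ} {z : Fin n → ℝ} (hz : z ∈ Bx n δ) (x : Fin n) :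
    δ ≤ z x ∧ z x ≤ 1 := hz x (Set.mem_univ x)

theorem pls_Bx_conv {n : ℕ} {δ : ℝ} {u v : Fin n → ℝ} (hu : u ∈ Bx n δ) (hv : v ∈ Bx n δ)
    {t s : ℝ} (ht : 0 < t) (hs : 0 < s) (hts : t + s = 1) : t • u + s • v ∈ Bx n δ := by
  intro x _
  have h1 := pls_Bx_mem hu x
  have h2 := pls_Bx_mem hv x
  simp only [Pi.add_apply, Pi.smul_apply, smul_eq_mul]
  constructor
  · nlinarith
  · nlinarith

/-- the one dimensional inequality -/
theorem pls_one (hHB : ST_HB) (X Y Z D t s : ℝ) (hX : 0 < X) (hY : 0 < Y) (ht : 101 / 102 ≤ t)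
    (hs : 0 < s) (hts : t + s = 1) (hZ : Z = t * X + s * Y) (hD : -(Z * D) ≤ 101 / 50) :
    D * (X - Z) + 3 * t * Real.log X + 3 * s * Real.log Y - 3 * Real.log Z ≤
      s / (3 * t ^ 2) * (Z * D) ^ 2 := by
  have ht0 : 0 < t := by linarith
  have hZ0 : 0 < Z := by rw [hZ]; positivity
  set η : ℝ := Y / Z with hη
  have hη0 : 0 < η := by rw [hη]; positivity
  set w : ℝ := -(Z * D) with hw
  have hwt : w / t ≤ 51 / 25 := by
    rw [div_le_iff₀ ht0]
    nlinarith
  have h1 := hHB (w / t) η hwt hη0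
  have h2 : Real.log (X / Z) ≤ X / Z - 1 := Real.log_le_sub_one_of_pos (by positivity)
  have h3 : Real.log (X / Z) = Real.log X - Real.log Z := Real.log_div hX.ne' hZ0.ne'
  have h4 : Real.log η = Real.log Y - Real.log Z := Real.log_div hY.ne' hZ0.ne'
  have h5 : t * (X / Z - 1) = s * (1 - η) := by
    rw [hη]
    field_simp
    rw [hZ]
    have : s = 1 - t := by linarith
    rw [this]
    ring
  have h6 : D * (X - Z) = s * ((w / t) * (η - 1)) := by
    rw [hη, hw]
    have e1 : X - Z = s * (X - Y) := by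
      rw [hZ]
      have : s = 1 - t := by linarith
      rw [this]; ring
    have e2 : Y - Z = t * (Y - X) := by
      rw [hZ]
      have : s = 1 - t := by linarith
      rw [this]; ring
    have e3 : Y / Z - 1 = t * (Y - X) / Z := by
      rw [← e2]; field_simp
    rw [e1, e3]
    field_simp
    ring
  have h7 : s / (3 * t ^ 2) * (Z * D) ^ 2 = s * ((w / t) ^ 2 / 3) := by
    rw [hw]
    field_simp
  have h8 : 3 * t * Real.log X + 3 * s * Real.log Y - 3 * Real.log Z =
      3 * (t * Real.log (X / Z)) + 3 * (s * Real.log η) := by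
    rw [h3, h4]
    have : s = 1 - t := by linarith
    rw [this]; ring
  have h9 : t * Real.log (X / Z) ≤ s * (1 - η) := by
    rw [← h5]
    exact mul_le_mul_of_nonneg_left h2 ht0.le
  have h10 : s * ((w / t) * (η - 1) - 3 * (η - 1 - Real.log η)) ≤ s * ((w / t) ^ 2 / 3) :=
    mul_le_mul_of_nonneg_left h1 hs.le
  rw [h7]
  nlinarith

/-- the pointwise inequality, logarithmic form -/
theorem pls_log (hHB : ST_HB) {n : ℕ} {δ : ℝ} {Q f : (Fin n → ℝ) → ℝ}
    {D : Fin n → (Fin n → ℝ) → ℝ} {C : ℝ} (hL : LH δ Q f D C) {t s : ℝ} (ht : 101 / 102 ≤ t)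
    (hs : 0 < s) (hts : t + s = 1) {x y : Fin n → ℝ} (hx : x ∈ Bx n δ) (hy : y ∈ Bx n δ) :
    f x + t * (∑ i, 3 * Real.log (x i)) + s * (∑ i, 3 * Real.log (y i)) ≤
      f (t • x + s • y) + s / (3 * t ^ 2) * (∑ i, ((t • x + s • y) i * D i (t • x + s • y)) ^ 2) +
        2 * C * n * s ^ 2 + ∑ i, 3 * Real.log ((t • x + s • y) i) := by
  have ht0 : 0 < t := by linarith
  set z : Fin n → ℝ := t • x + s • y with hz
  have hzB : z ∈ Bx n δ := pls_Bx_conv hx hy ht0 hs hts
  have hzi : ∀ i, z i = t * x i + s * y i := by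
    intro i; rw [hz]; simp
  have h1 := hL.tay x hx z hzB
  have h2 : ∑ i, (x i - z i) ^ 2 ≤ n * s ^ 2 := by
    calc ∑ i, (x i - z i) ^ 2 ≤ ∑ i : Fin n, s ^ 2 := by
          apply Finset.sum_le_sum
          intro i _
          have a1 := pls_Bx_mem hx i
          have a2 := pls_Bx_mem hy i
          have e1 : x i - z i = s * (x i - y i) := by
            rw [hzi]
            have : s = 1 - t := by linarith
            rw [this]; ring
          rw [e1, mul_pow]
          have e2 : (x i - y i) ^ 2 ≤ 1 := by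
            have := hL.d0
            nlinarith
          have : 0 ≤ s ^ 2 := by positivity
          nlinarith
      _ = n * s ^ 2 := by simp
  have h3 : C * ∑ i, (x i - z i) ^ 2 ≤ 2 * C * n * s ^ 2 := by
    have e1 := mul_le_mul_of_nonneg_left h2 hL.C0
    have e2 : 0 ≤ C * (n * s ^ 2) := by
      have := hL.C0
      positivity
    nlinarith
  have h4 : ∀ i, D i z * (x i - z i) + 3 * t * Real.log (x i) + 3 * s * Real.log (y i) -
      3 * Real.log (z i) ≤ s / (3 * t ^ 2) * (z i * D i z) ^ 2 := by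
    intro i
    have a1 := pls_Bx_mem hx i
    have a2 := pls_Bx_mem hy i
    exact pls_one hHB (x i) (y i) (z i) (D i z) t s (lt_of_lt_of_le hL.d0 a1.1)
      (lt_of_lt_of_le hL.d0 a2.1) ht hs hts (hzi i) (hL.D1 z hzB i)
  have h5 := Finset.sum_le_sum (s := Finset.univ) (fun i _ => h4 i)
  rw [← Finset.mul_sum] at h5
  simp only [Finset.sum_sub_distrib, Finset.sum_add_distrib] at h5
  simp only [← Finset.mul_sum] at h5 ⊢
  have h6 : t * (3 * ∑ i, Real.log (x i)) = 3 * t * ∑ i, Real.log (x i) := by ring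
  have h7 : s * (3 * ∑ i, Real.log (y i)) = 3 * s * ∑ i, Real.log (y i) := by ring
  rw [h6, h7]
  linarith

theorem pls_wz_pos {n : ℕ} {δ : ℝ} (hδ : 0 < δ) {z : Fin n → ℝ} (hz : z ∈ Bx n δ) : 0 < wz z := by
  unfold wz
  apply Finset.prod_pos
  intro x _
  have := pls_Bx_mem hz x
  have h0 : 0 < z x := lt_of_lt_of_le hδ this.1
  positivity

theorem pls_log_wz {n : ℕ} {δ : ℝ} (hδ : 0 < δ) {z : Fin n → ℝ} (hz : z ∈ Bx n δ) :
    Real.log (wz z) = ∑ i, 3 * Real.log (z i) := by
  unfold wz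
  rw [Real.log_prod]
  · apply Finset.sum_congr rfl
    intro x _
    rw [Real.log_pow]
    push_cast
    ring
  · intro x _
    have := pls_Bx_mem hz x
    have h0 : 0 < z x := lt_of_lt_of_le hδ this.1
    positivity

theorem pls_wz_cont (n : ℕ) : Continuous (wz : (Fin n → ℝ) → ℝ) := by
  unfold wz
  exact continuous_finset_prod _ (fun x _ => (continuous_apply x).pow 3)

/-- the pointwise inequality -/
theorem pls_point (hHB : ST_HB) {n : ℕ} {δ : ℝ} {Q f : (Fin n → ℝ) → ℝ}
    {D : Fin n → (Fin n → ℝ) → ℝ} {C : ℝ} (hL : LH δ Q f D C) {t s : ℝ} (ht : 101 / 102 ≤ t)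
    (hs : 0 < s) (hts : t + s = 1) {x y : Fin n → ℝ} (hx : x ∈ Bx n δ) (hy : y ∈ Bx n δ) :
    (Real.exp (f x / t) * (wz x / Q x)) ^ t * (1 * (wz y / Q y)) ^ s ≤
      Real.exp (f (t • x + s • y) + s / (3 * t ^ 2) *
        (∑ i, ((t • x + s • y) i * D i (t • x + s • y)) ^ 2) + 2 * C * n * s ^ 2) *
        (wz (t • x + s • y) / Q (t • x + s • y)) := by
  have ht0 : 0 < t := by linarith
  have hzB : t • x + s • y ∈ Bx n δ := pls_Bx_conv hx hy ht0 hs hts
  have hδ := hL.d0
  have w1 := pls_wz_pos hδ hx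
  have w2 := pls_wz_pos hδ hy
  have w3 := pls_wz_pos hδ hzB
  have q1 := hL.Q0 x hx
  have q2 := hL.Q0 y hy
  have q3 := hL.Q0 _ hzB
  have hl := pls_log hHB hL ht hs hts hx hy
  have hQ := hL.Ql x hx y hy t s ht0 hs hts
  have hQl : Real.log (Q (t • x + s • y)) ≤ t * Real.log (Q x) + s * Real.log (Q y) := by
    have e1 := Real.log_le_log q3 hQ
    rwa [Real.log_mul (by positivity) (by positivity), Real.log_rpow q1, Real.log_rpow q2] at e1
  have hA : 0 < (Real.exp (f x / t) * (wz x / Q x)) ^ t * (1 * (wz y / Q y)) ^ s := by positivity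
  rw [← Real.log_le_log_iff hA (by positivity)]
  rw [Real.log_mul (by positivity) (by positivity), Real.log_rpow (by positivity),
    Real.log_rpow (by positivity), Real.log_mul (by positivity) (by positivity), Real.log_exp,
    one_mul, Real.log_div w1.ne' q1.ne', Real.log_div w2.ne' q2.ne',
    Real.log_mul (by positivity) (by positivity), Real.log_exp, Real.log_div w3.ne' q3.ne',
    pls_log_wz hδ hx, pls_log_wz hδ hy, pls_log_wz hδ hzB]
  have e1 : t * (f x / t + (∑ i, 3 * Real.log (x i) - Real.log (Q x))) =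
      f x + t * (∑ i, 3 * Real.log (x i)) - t * Real.log (Q x) := by
    field_simp
    ring
  rw [e1]
  linarith

theorem pls_conv {n : ℕ} {δ : ℝ} {u : (Fin n → ℝ) → ℝ} (hu : ContinuousOn u (Bx n δ))
    (hu0 : ∀ z ∈ Bx n δ, 0 ≤ u z) :
    Measurable ((Bx n δ).indicator fun z => ENNReal.ofReal (u z)) ∧
    ∫⁻ z, (Bx n δ).indicator (fun z => ENNReal.ofReal (u z)) z =
      ENNReal.ofReal (∫ z in Bx n δ, u z) := by
  classical
  have hm := pls_Bx_meas n δ
  constructor
  · have h1 : ContinuousOn (fun z => ENNReal.ofReal (u z)) (Bx n δ) :=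
      ENNReal.continuous_ofReal.comp_continuousOn hu
    rw [← Set.piecewise_eq_indicator]
    exact h1.measurable_piecewise continuousOn_const hm
  · rw [lintegral_indicator hm]
    symm
    apply ofReal_integral_eq_lintegral_ofReal
    · exact hu.integrableOn_compact (pls_Bx_compact n δ)
    · exact (ae_restrict_iff' hm).2 (Eventually.of_forall hu0)

theorem st_PLS (hHB : ST_HB) : ST_PLS := by
  intro n δ Q f D C hL s hs hs1
  have ht : 101 / 102 ≤ 1 - s := by linarith
  have ht0 : 0 < 1 - s := by linarith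
  have hts : (1 - s) + s = 1 := by ring
  have hδ := hL.d0
  have hρ : ContinuousOn (fun z => wz z / Q z) (Bx n δ) :=
    (pls_wz_cont n).continuousOn.div hL.Qc (fun z hz => (hL.Q0 z hz).ne')
  have hρ0 : ∀ z ∈ Bx n δ, 0 ≤ wz z / Q z := fun z hz =>
    (div_pos (pls_wz_pos hδ hz) (hL.Q0 z hz)).le
  unfold IB
  have c1 : ContinuousOn (fun z => Real.exp (f z / (1 - s)) * (wz z / Q z)) (Bx n δ) :=
    (Real.continuous_exp.comp_continuousOn (hL.fc.div_const _)).mul hρ
  have c2 : ContinuousOn (fun z => 1 * (wz z / Q z)) (Bx n δ) := continuousOn_const.mul hρ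
  have c3 : ContinuousOn (fun z => Real.exp (f z + s / (3 * (1 - s) ^ 2) *
      ∑ x, (z x * D x z) ^ 2 + 2 * C * n * s ^ 2) * (wz z / Q z)) (Bx n δ) := by
    apply ContinuousOn.mul _ hρ
    apply Real.continuous_exp.comp_continuousOn
    apply ContinuousOn.add _ continuousOn_const
    apply hL.fc.add
    apply continuousOn_const.mul
    apply continuousOn_finset_sum
    intro x _
    exact (((continuous_apply x).continuousOn).mul (hL.Dc x)).pow 2
  obtain ⟨m1, i1⟩ := pls_conv c1 (fun z hz => mul_nonneg (Real.exp_pos _).le (hρ0 z hz))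
  obtain ⟨m2, i2⟩ := pls_conv c2 (fun z hz => mul_nonneg zero_le_one (hρ0 z hz))
  obtain ⟨m3, i3⟩ := pls_conv c3 (fun z hz => mul_nonneg (Real.exp_pos _).le (hρ0 z hz))
  have key := Pool.Agent.Helper67.LB.pl_pi n m1 m2 m3 ht0 hs hts ?_
  · rw [i1, i2, i3] at key
    have n1 : 0 ≤ ∫ z in Bx n δ, Real.exp (f z / (1 - s)) * (wz z / Q z) :=
      setIntegral_nonneg (pls_Bx_meas n δ) (fun z hz => mul_nonneg (Real.exp_pos _).le (hρ0 z hz))
    have n2 : 0 ≤ ∫ z in Bx n δ, 1 * (wz z / Q z) :=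
      setIntegral_nonneg (pls_Bx_meas n δ) (fun z hz => mul_nonneg zero_le_one (hρ0 z hz))
    have n3 : 0 ≤ ∫ z in Bx n δ, Real.exp (f z + s / (3 * (1 - s) ^ 2) *
        ∑ x, (z x * D x z) ^ 2 + 2 * C * n * s ^ 2) * (wz z / Q z) :=
      setIntegral_nonneg (pls_Bx_meas n δ) (fun z hz => mul_nonneg (Real.exp_pos _).le (hρ0 z hz))
    rw [ENNReal.ofReal_rpow_of_nonneg n1 ht0.le, ENNReal.ofReal_rpow_of_nonneg n2 hs.le,
      ← ENNReal.ofReal_mul (by positivity)] at key
    exact (ENNReal.ofReal_le_ofReal_iff n3).1 key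
  · intro x y
    by_cases hx : x ∈ Bx n δ
    · by_cases hy : y ∈ Bx n δ
      · have hz : (1 - s) • x + s • y ∈ Bx n δ := pls_Bx_conv hx hy ht0 hs hts
        rw [Set.indicator_of_mem hx, Set.indicator_of_mem hy, Set.indicator_of_mem hz,
          ENNReal.ofReal_rpow_of_nonneg (mul_nonneg (Real.exp_pos _).le (hρ0 x hx)) ht0.le,
          ENNReal.ofReal_rpow_of_nonneg (mul_nonneg zero_le_one (hρ0 y hy)) hs.le,
          ← ENNReal.ofReal_mul (Real.rpow_nonneg
            (mul_nonneg (Real.exp_pos _).le (hρ0 x hx)) _)]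
        apply ENNReal.ofReal_le_ofReal
        exact pls_point hHB hL ht hs hts hx hy
      · rw [Set.indicator_of_notMem hy, ENNReal.zero_rpow_of_pos hs, mul_zero]
        exact bot_le
    · rw [Set.indicator_of_notMem hx, ENNReal.zero_rpow_of_pos ht0, zero_mul]
      exact bot_le

end Pool.Agent.Helper44.GN
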